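import Pool.Agent.H500.HC.Stm

set_option autoImplicit false
set_option linter.unusedSectionVars false

/-!
# Independence of affine quotients, and the counting bound
-/

namespace Pool.Agent.H548.HC.Ratio

open Pool.Agent.H500.KumI (AffI)
open Pool.Agent.H500.KumI.AffI

section basic

variable {ι : Type} {r : ℕ}

theorem pow_of_a {g : AffI ι r} (hg : g.a = 1) (n : ℕ) :
    (g ^ n).a = 1 ∧ (g ^ n).x = (n : ZMod r) • g.x := by
  induction n with
  | zero => exact ⟨rfl, by rw [pow_zero, one_x, Nat.cast_zero, zero_smul]⟩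
  | succ n ih =>
    rw [pow_succ]
    refine ⟨by rw [mul_a, ih.1, hg, one_mul], ?_⟩
    rw [mul_x, ih.1, ih.2, Units.val_one, one_smul, Nat.cast_succ, add_smul, one_smul]

theorem comm_x {s w : AffI ι r} (hw : w.a = 1) :
    (s * w * s⁻¹ * w⁻¹).a = 1 ∧ (s * w * s⁻¹ * w⁻¹).x = ((s.a : ZMod r) - 1) • w.x := by
  constructor
  · simp only [mul_a, inv_a, hw, mul_one, inv_one, mul_inv_cancel]
  · simp only [mul_x, mul_a, inv_a, inv_x, hw, Units.val_one, one_smul, mul_one, inv_one,
      smul_neg]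
    rw [mul_inv_cancel, Units.val_one, one_smul, sub_smul, one_smul, smul_smul]
    have h1 : (s.a : ZMod r) * ((s.a)⁻¹ : (ZMod r)ˣ) = 1 := Units.mul_inv _
    rw [h1, one_smul]
    abel

/-- as a product -/
def prodEquiv (ι : Type) (r : ℕ) : AffI ι r ≃ (ZMod r)ˣ × (ι → ZMod r) where
  toFun g := (g.a, g.x)
  invFun p := ⟨p.1, p.2⟩
  left_inv _ := rfl
  right_inv _ := rfl

end basic

section indep

variable {I ι : Type} [Fintype I] (r : I → ℕ) [hr : ∀ i, Fact (r i).Prime]
  (hinj : Function.Injective r) (h3 : ∀ i, 3 ≤ r i) {G : Type} [Group G]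
  (Φ : ∀ i, G →* AffI ι (r i))
  (hχ : ∀ t : (i : I) → (ZMod (r i))ˣ, ∃ g : G, ∀ i, (Φ i g).a = t i)

include hinj in
theorem exists_idem (i : I) : ∃ e : ℕ, (e : ZMod (r i)) = 1 ∧ ∀ j, j ≠ i → (e : ZMod (r j)) = 0 := by
  classical
  refine ⟨(∏ j ∈ Finset.univ.erase i, r j) ^ (r i - 1), ?_, ?_⟩
  · push_cast
    apply ZMod.pow_card_sub_one_eq_one
    rw [Finset.prod_ne_zero_iff]
    intro j hj h
    rw [ZMod.natCast_eq_zero_iff] at h
    have h1 := (Nat.prime_dvd_prime_iff_eq (hr i).out (hr j).out).1 h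
    exact (Finset.mem_erase.1 hj).1 (hinj h1.symm)
  · intro j hj
    push_cast
    have h1 : (∏ x ∈ Finset.univ.erase i, (r x : ZMod (r j))) = 0 := by
      apply Finset.prod_eq_zero (Finset.mem_erase.2 ⟨hj, Finset.mem_univ j⟩)
      exact ZMod.natCast_self (r j)
    rw [h1]
    apply zero_pow
    have := (hr i).out.two_le
    omega

include hinj h3 hχ in
theorem indep (g : I → G) : ∃ g' : G, ∀ i, Φ i g' = Φ i (g i) := by
  classical
  obtain ⟨g0, hg0⟩ := hχ fun i => (Φ i (g i)).a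
  -- the elements `w i`
  set w : I → G := fun i => g0⁻¹ * g i with hw
  have hwa : ∀ i, (Φ i (w i)).a = 1 := by
    intro i
    rw [hw]
    simp only [map_mul, map_inv, mul_a, inv_a, hg0, inv_mul_cancel]
  have h2 : ∀ i, ∃ u : (ZMod (r i))ˣ, (u : ZMod (r i)) = 2 := by
    intro i
    have h4 : (2 : ZMod (r i)) ≠ 0 := by
      intro h
      have h5 : ((2 : ℕ) : ZMod (r i)) = 0 := by exact_mod_cast h
      rw [ZMod.natCast_eq_zero_iff] at h5
      have := Nat.le_of_dvd (by norm_num) h5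
      have := h3 i
      omega
    exact ⟨Units.mk0 2 h4, rfl⟩
  choose u hu using h2
  have hs : ∀ i, ∃ s : G, (Φ i s).a = u i := by
    intro i
    obtain ⟨s, hs⟩ := hχ u
    exact ⟨s, hs i⟩
  choose s hs using hs
  have hn : ∀ i, ∃ n : G, (∀ j, (Φ j n).a = 1) ∧ Φ i n = Φ i (w i) := by
    intro i
    refine ⟨s i * w i * (s i)⁻¹ * (w i)⁻¹, ?_, ?_⟩
    · intro j
      simp only [map_mul, map_inv, mul_a, inv_a]
      rw [mul_comm (Φ j (s i)).a, mul_inv_cancel_right, mul_inv_cancel]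
    · simp only [map_mul, map_inv]
      obtain ⟨h4, h5⟩ := comm_x (s := Φ i (s i)) (hwa i)
      apply AffI.ext
      · rw [h4, hwa]
      · rw [h5, hs, hu]
        norm_num
  choose n hna hni using hn
  have key : ∀ R : Finset I, ∃ m : G, (∀ j, (Φ j m).a = 1) ∧
      (∀ j ∈ R, (Φ j m).x = (Φ j (w j)).x) ∧ (∀ j ∉ R, (Φ j m).x = 0) := by
    intro R
    induction R using Finset.induction_on with
    | empty => exact ⟨1, fun j => by rw [map_one, one_a], by simp, fun j _ => by rw [map_one, one_x]⟩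
    | insert i R hi ih =>
      obtain ⟨m, hm1, hm2, hm3⟩ := ih
      obtain ⟨e, he1, he2⟩ := exists_idem r hinj i
      have hx : ∀ j, (Φ j (m * n i ^ e)).x = (Φ j m).x + (e : ZMod (r j)) • (Φ j (n i)).x := by
        intro j
        rw [map_mul, map_pow, mul_x, hm1, (pow_of_a (hna i j) e).2, Units.val_one, one_smul]
      refine ⟨m * n i ^ e, ?_, ?_, ?_⟩
      · intro j
        rw [map_mul, map_pow, mul_a, hm1, (pow_of_a (hna i j) e).1, one_mul]
      · intro j hj
        rw [hx]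
        by_cases hji : j = i
        · subst hji
          rw [hm3 j hi, he1, one_smul, zero_add, hni]
        · rw [he2 j hji, zero_smul, add_zero]
          exact hm2 j ((Finset.mem_insert.1 hj).resolve_left hji)
      · intro j hj
        rw [Finset.mem_insert, not_or] at hj
        rw [hx, he2 j hj.1, zero_smul, add_zero]
        exact hm3 j hj.2
  obtain ⟨m, hm1, hm2, -⟩ := key Finset.univ
  refine ⟨g0 * m, fun i => ?_⟩
  have h4 : Φ i m = Φ i (w i) := AffI.ext (by rw [hm1, hwa]) (hm2 i (Finset.mem_univ i))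
  rw [map_mul, h4, ← map_mul, hw]
  simp only [mul_inv_cancel_left]

include hχ in
theorem surj (hx : ∀ (i : I) (x : ι → ZMod (r i)), ∃ g : G, (Φ i g).a = 1 ∧ (Φ i g).x = x) (i : I) :
    Function.Surjective (Φ i) := by
  intro y
  obtain ⟨s, hs⟩ : ∃ s : G, (Φ i s).a = y.a := by
    classical
    obtain ⟨s, hs⟩ := hχ (fun j => if h : j = i then (by rw [h]; exact y.a) else 1)
    refine ⟨s, ?_⟩
    rw [hs i]
    simp
  obtain ⟨h, h1, h2⟩ := hx i (y.x - (Φ i s).x)
  refine ⟨h * s, ?_⟩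
  apply AffI.ext
  · rw [map_mul, mul_a, h1, one_mul, hs]
  · rw [map_mul, mul_x, h1, h2, Units.val_one, one_smul, sub_add_cancel]

end indep

theorem card_AffI (ι : Type) [Fintype ι] (r : ℕ) [Fact r.Prime] :
    Nat.card (AffI ι r) = (r - 1) * r ^ Fintype.card ι := by
  classical
  rw [Nat.card_congr (prodEquiv ι r), Nat.card_prod, Nat.card_eq_fintype_card,
    Nat.card_eq_fintype_card, ZMod.card_units, Fintype.card_pi]
  simp [ZMod.card]

theorem card_bad (ι : Type) [Fintype ι] (r : ℕ) [Fact r.Prime] (B : Set (ι → ZMod r)) :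
    Nat.card {g : AffI ι r // ¬ (g.a = 1 → g.x ∈ B)} + B.ncard = r ^ Fintype.card ι := by
  classical
  have e : {g : AffI ι r // ¬ (g.a = 1 → g.x ∈ B)} ≃ (Bᶜ : Set (ι → ZMod r)) :=
    { toFun := fun g => ⟨g.1.x, fun h => g.2 fun _ => h⟩
      invFun := fun x => ⟨⟨1, x.1⟩, fun h => x.2 (h rfl)⟩
      left_inv := by
        rintro ⟨⟨a, x⟩, h⟩
        have ha : a = 1 := by
          by_contra hne
          exact h fun h' => absurd h' hne
        subst ha
        rfl
      right_inv := fun x => rfl }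
  have h1 := Set.ncard_add_ncard_compl B
  rw [Nat.card_congr e, Nat.card_coe_set_eq, add_comm, h1, Nat.card_eq_fintype_card,
    Fintype.card_pi]
  simp [ZMod.card]

theorem main : Pool.Agent.H500.HC.S_Ratio := by
  classical
  intro I ι _ _ r hr G _ Φ B hinj h3 hχ hxx hB
  have hfin : ∀ i, Finite (AffI ι (r i)) := fun i => inferInstance
  set Ψ : G →* ((i : I) → AffI ι (r i)) := MonoidHom.pi Φ with hΨ
  have hΨa : ∀ g i, Ψ g i = Φ i g := fun g i => rfl
  have hindep := indep r hinj h3 Φ hχ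
  have hsurj := surj r Φ hχ hxx
  have hΨs : Function.Surjective Ψ := by
    intro f
    choose g hg using fun i => hsurj i (f i)
    obtain ⟨g', hg'⟩ := hindep g
    refine ⟨g', ?_⟩
    funext i
    rw [hΨa, hg', hg]
  have hinjk : Function.Injective (QuotientGroup.kerLift Ψ) := QuotientGroup.kerLift_injective Ψ
  have hsurjk : Function.Surjective (QuotientGroup.kerLift Ψ) := by
    intro f
    obtain ⟨g, hg⟩ := hΨs f
    exact ⟨(g : G ⧸ Ψ.ker), hg⟩
  have e1 : Nat.card (G ⧸ Ψ.ker) = ∏ i, Nat.card (AffI ι (r i)) := by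
    rw [Nat.card_congr (Equiv.ofBijective _ ⟨hinjk, hsurjk⟩), Nat.card_pi]
  have e2 : ((QuotientGroup.mk : G → G ⧸ Ψ.ker) '' {g | ∀ i, (Φ i g).a = 1 → (Φ i g).x ∈ B i}).ncard
      = ∏ i, Nat.card {h : AffI ι (r i) // h.a = 1 → h.x ∈ B i} := by
    rw [← Set.ncard_image_of_injective _ hinjk]
    have h2 : (QuotientGroup.kerLift Ψ) '' ((QuotientGroup.mk : G → G ⧸ Ψ.ker) ''
        {g | ∀ i, (Φ i g).a = 1 → (Φ i g).x ∈ B i}) = {f | ∀ i, (f i).a = 1 → (f i).x ∈ B i} := by
      ext f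
      rw [Set.mem_ofPred_eq, Set.image_image]
      constructor
      · rintro ⟨g, hg, rfl⟩ i
        exact hg i
      · intro h
        obtain ⟨g, hg⟩ := hΨs f
        refine ⟨g, ?_, hg⟩
        intro i
        have := h i
        rw [← hg] at this
        exact this
    rw [h2, ← Nat.card_coe_set_eq]
    have h3 : Nat.card {f : (i : I) → AffI ι (r i) | ∀ i, (f i).a = 1 → (f i).x ∈ B i} =
        Nat.card ((i : I) → {h : AffI ι (r i) // h.a = 1 → h.x ∈ B i}) :=
      Nat.card_congr (Equiv.subtypePiEquivPi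
        (p := fun i (h : AffI ι (r i)) => h.a = 1 → h.x ∈ B i))
    rw [h3, Nat.card_pi]
  rw [e1, e2]
  push_cast
  rw [← Finset.prod_div_distrib]
  refine Finset.prod_le_prod (fun i _ => by positivity) fun i _ => ?_
  have c1 := card_AffI ι (r i)
  have c2 := card_bad ι (r i) (B i)
  have c3 : Nat.card (AffI ι (r i)) = Nat.card {h : AffI ι (r i) // h.a = 1 → h.x ∈ B i} +
      Nat.card {h : AffI ι (r i) // ¬ (h.a = 1 → h.x ∈ B i)} := by
    rw [← Nat.card_sum]
    exact Nat.card_congr (Equiv.sumCompl fun h : AffI ι (r i) => (h.a = 1 → h.x ∈ B i)).symm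
  have c4 := hB i
  have h3i := h3 i
  have hrp : 0 < (r i) ^ Fintype.card ι := by positivity
  set A := Nat.card (AffI ι (r i)) with hA
  set c := Nat.card {h : AffI ι (r i) // h.a = 1 → h.x ∈ B i} with hc
  set b := Nat.card {h : AffI ι (r i) // ¬ (h.a = 1 → h.x ∈ B i)} with hb
  set R := (r i) ^ Fintype.card ι with hR
  have h5 : R ≤ 2 * b := by omega
  have h6 : A ≤ 2 * r i * b := by
    calc A = (r i - 1) * R := c1
      _ ≤ r i * (2 * b) := Nat.mul_le_mul (Nat.sub_le _ _) h5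
      _ = _ := by ring
  have hApos : 0 < A := by
    rw [c1]
    apply Nat.mul_pos _ hrp
    omega
  have h7 : (A : ℝ) = c + b := by exact_mod_cast c3
  have h8 : (0 : ℝ) < A := by exact_mod_cast hApos
  have h9 : (0 : ℝ) < r i := by
    have : 0 < r i := by omega
    exact_mod_cast this
  have h10 : (A : ℝ) ≤ 2 * r i * b := by exact_mod_cast h6
  rw [div_le_iff₀ h8]
  have h11 : 1 / (2 * (r i : ℝ)) * A ≤ b := by
    rw [div_mul_eq_mul_div, one_mul, div_le_iff₀ (by positivity)]
    linarith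
  nlinarith

end Pool.Agent.H548.HC.Ratio
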